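import Pool.Agent.Helper92.GG.Stmts
import Pool.Agent.Helper92.GG.RK

/-! # IRR: neighbours of a vertex are conjugate over its closure -/

set_option autoImplicit false

namespace Pool.Agent.Helper92.GG

open MvPolynomial
open Pool.Agent.Helper49.Girth (cl ty mem_cl mem_cl' coe_cl subset_cl mem_cl_of_mem cl_le_cl cl_mono
  root_mem_cl aeval_mem ty_zero ty_succ)

universe u

section edges

variable {K : Type u} [Field K] {n : ℕ} {P : Ideal (MvPolynomial (Fin n ⊕ Fin n) K)}
  {L : Type u} [Field L] [Algebra K L] {L' : Type u} [Field L'] [Algebra K L']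

theorem irr_edge_symm {σ : Bool} {x y : Fin n → L} (h : Edge P σ x y) : Edge P (!σ) y x := by
  cases σ <;> exact h

theorem irr_edge_vtx {σ : Bool} {x y : Fin n → L} (h : Edge P σ x y) : Vtx P σ x := by
  unfold Edge at h
  unfold Vtx
  ext f
  rw [← h]
  change aeval x f = 0 ↔ aeval (R := K) (Sum.elim (cond σ x y) (cond σ y x)) (rename _ f) = 0
  rw [aeval_rename]
  cases σ <;> rfl

theorem irr_edge_vtx' {σ : Bool} {x y : Fin n → L} (h : Edge P σ x y) : Vtx P (!σ) y :=
  irr_edge_vtx (irr_edge_symm h)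

theorem irr_edge_congr {σ : Bool} {x y : Fin n → L} {x' y' : Fin n → L'} (h : Edge P σ x y)
    (hc : Conj K (Sum.elim x y) (Sum.elim x' y')) : Edge P σ x' y' := by
  unfold Edge at h ⊢
  rw [← h, eq_comm, ← conj_iff_ker]
  cases σ
  · have := hc.comp (Sum.swap : Fin n ⊕ Fin n → Fin n ⊕ Fin n)
    have e1 : (Sum.elim x y ∘ (Sum.swap : Fin n ⊕ Fin n → Fin n ⊕ Fin n)) = Sum.elim y x := by
      funext i; cases i <;> rfl
    have e2 : (Sum.elim x' y' ∘ (Sum.swap : Fin n ⊕ Fin n → Fin n ⊕ Fin n)) = Sum.elim y' x' := by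
      funext i; cases i <;> rfl
    rw [e1, e2] at this
    exact this
  · exact hc

theorem irr_vtx_conj {σ : Bool} {x : Fin n → L} {x' : Fin n → L'} (h : Vtx P σ x) (h' : Vtx P σ x') :
    Conj K x x' := by
  rw [conj_iff_ker]
  unfold Vtx at h h'
  rw [h, h']

end edges

section poly

variable {K : Type u} [Field K] {n : ℕ} {L : Type u} [Field L] [Algebra K L]

/-- substitute the coordinates of `x` -/
theorem irr_subst (s : Set L) (x : Fin n → L) (hx : ∀ c, x c ∈ cl K s)
    (f : MvPolynomial (Fin n ⊕ Fin n) K) : ∃ g : MvPolynomial (Fin n) (cl K s),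
    ∀ z : Fin n → L, aeval z g = aeval (Sum.elim x z) f := by
  refine ⟨aeval (Sum.elim (fun c => C (⟨x c, hx c⟩ : cl K s)) X) f, ?_⟩
  intro z
  have h : ((aeval (R := cl K s) z).restrictScalars K).comp
      (aeval (R := K) (Sum.elim (fun c => C (⟨x c, hx c⟩ : cl K s)) X)) =
      aeval (R := K) (Sum.elim x z) := by
    apply MvPolynomial.algHom_ext
    intro i
    cases i with
    | inl c =>
      simp only [AlgHom.coe_comp, AlgHom.coe_restrictScalars', Function.comp_apply, aeval_X,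
        Sum.elim_inl, aeval_C]
      rfl
    | inr c =>
      simp only [AlgHom.coe_comp, AlgHom.coe_restrictScalars', Function.comp_apply, aeval_X,
        Sum.elim_inr]
  exact DFunLike.congr_fun h f

theorem irr_spec_pair {s : Set L} {x : Fin n → L} (hx : ∀ c, x c ∈ cl K s) {z z' : Fin n → L}
    (h : Spec (cl K s) z z') : Spec K (Sum.elim x z) (Sum.elim x z') := by
  intro f hf
  obtain ⟨g, hg⟩ := irr_subst s x hx f
  rw [← hg] at hf ⊢
  exact h g hf

theorem irr_conj_pair {s : Set L} {x : Fin n → L} (hx : ∀ c, x c ∈ cl K s) {z z' : Fin n → L}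
    (h : Conj (cl K s) z z') : Conj K (Sum.elim x z) (Sum.elim x z') :=
  Conj.of_spec (irr_spec_pair hx h.spec) (irr_spec_pair hx h.symm.spec)

theorem irr_spec_empty [IsAlgClosed K] {z z' : Fin n → L} (h : Spec K z z') :
    Spec (cl K (∅ : Set L)) z z' := by
  have hsurj : Function.Surjective (algebraMap K (cl K (∅ : Set L))) := by
    intro a
    have h1 : IsAlgebraic K (a : L) := by
      have h2 := mem_cl'.mp a.2
      rw [Algebra.adjoin_empty] at h2
      obtain ⟨p, hp0, hp⟩ := h2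
      let e : (⊥ : Subalgebra K L) ≃ₐ[K] K := Algebra.botEquiv K L
      refine ⟨p.map (e : (⊥ : Subalgebra K L) →+* K), (Polynomial.map_ne_zero_iff e.injective).mpr hp0, ?_⟩
      have h3 : (algebraMap K L).comp (e : (⊥ : Subalgebra K L) →+* K) =
          algebraMap (⊥ : Subalgebra K L) L := by
        ext b
        obtain ⟨c, hc⟩ := e.symm.surjective b
        subst hc
        simp only [RingHom.coe_comp, RingHom.coe_coe, Function.comp_apply, AlgEquiv.apply_symm_apply]
        change algebraMap K L c = ((e.symm c : (⊥ : Subalgebra K L)) : L)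
        rw [Algebra.botEquiv_symm_apply]
        rfl
      rw [Polynomial.aeval_def, Polynomial.eval₂_map, h3]
      exact hp
    obtain ⟨c, hc⟩ := minpoly.mem_range_of_degree_eq_one K (a : L)
      (IsAlgClosed.degree_eq_one_of_irreducible K (minpoly.irreducible h1.isIntegral))
    exact ⟨c, Subtype.ext hc⟩
  intro f hf
  obtain ⟨g, rfl⟩ := MvPolynomial.map_surjective _ hsurj f
  rw [MvPolynomial.aeval_map_algebraMap] at hf ⊢
  exact h g hf

end poly

section descend

variable {K : Type u} [Field K] {L Ω : Type u} [Field L] [Field Ω] [Algebra K L] [Algebra K Ω]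
  [Algebra L Ω] [IsScalarTower K L Ω]

theorem irr_descend {s : Set L} {ι : Type} {y y' : ι → L}
    (h : Spec (cl K (algebraMap L Ω '' s)) (fun i => algebraMap L Ω (y i))
      (fun i => algebraMap L Ω (y' i))) : Spec (cl K s) y y' := by
  let j : cl K s →+* cl K (algebraMap L Ω '' s) :=
    ((algebraMap L Ω).comp (algebraMap (cl K s) L)).codRestrict (cl K (algebraMap L Ω '' s)) (fun a =>
      map_mem_cl (IsScalarTower.toAlgHom K L Ω) a.2)
  have key : ∀ (z : ι → L) (f : MvPolynomial ι (cl K s)),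
      aeval (fun i => algebraMap L Ω (z i)) (map j f) = algebraMap L Ω (aeval z f) := by
    intro z f
    rw [aeval_def, aeval_def, eval₂_map]
    exact (eval₂_comp_left (algebraMap L Ω) (algebraMap (cl K s) L) z f).symm
  intro f hf
  have h1 := h (map j f) (by rw [key, hf, map_zero])
  rw [key] at h1
  exact (map_eq_zero_iff _ (algebraMap L Ω).injective).mp h1

end descend

section walk

variable {K : Type u} [Field K] [IsAlgClosed K] {n m k : ℕ} {S : Sys K n m k}
  {Ω : Type u} [Field Ω] [Algebra K Ω]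

theorem irr_pts_finite {L : Type u} (v : ℕ → Fin n → L) (r : ℕ) : (pts v (Set.Iic r)).Finite :=
  (Set.finite_Iic r).biUnion fun _ _ => Set.finite_range _

theorem irr_pts_succ {L : Type u} (v : ℕ → Fin n → L) (r : ℕ) :
    pts v (Set.Iic (r + 1)) = pts v (Set.Iic r) ∪ Set.range (v (r + 1)) := by
  unfold pts
  ext a
  simp only [Set.mem_iUnion, Set.mem_Iic, Set.mem_union, exists_prop]
  constructor
  · rintro ⟨i, hi, ha⟩
    rcases Nat.lt_or_ge r i with h | h
    · have : i = r + 1 := by omega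
      subst this
      exact Or.inr ha
    · exact Or.inl ⟨i, h, ha⟩
  · rintro (⟨i, hi, ha⟩ | ha)
    · exact ⟨i, by omega, ha⟩
    · exact ⟨r + 1, le_rfl, ha⟩

theorem irr_range_subset_pts {L : Type u} (v : ℕ → Fin n → L) {i r : ℕ} (h : i ≤ r) :
    Set.range (v i) ⊆ pts v (Set.Iic r) := by
  intro a ha
  exact Set.mem_biUnion (show i ∈ Set.Iic r from h) ha

theorem irr_pts_congr {L : Type u} {v w : ℕ → Fin n → L} {r : ℕ} (h : ∀ i ≤ r, v i = w i) :
    pts v (Set.Iic r) = pts w (Set.Iic r) := by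
  unfold pts
  ext a
  simp only [Set.mem_iUnion, Set.mem_Iic, exists_prop]
  constructor
  · rintro ⟨i, hi, ha⟩
    exact ⟨i, hi, by rwa [← h i hi]⟩
  · rintro ⟨i, hi, ha⟩
    exact ⟨i, hi, by rwa [h i hi]⟩

theorem irr_walk_vtx {P : Ideal (MvPolynomial (Fin n ⊕ Fin n) K)} {L : Type u} [Field L] [Algebra K L]
    {σ : Bool} {r : ℕ} {v : ℕ → Fin n → L} (hr : 1 ≤ r) (hv : IsWalk P σ r v) :
    Vtx P (ty σ r) (v r) := by
  obtain ⟨q, rfl⟩ : ∃ q, r = q + 1 := ⟨r - 1, by omega⟩
  exact irr_edge_vtx' (hv q (Nat.lt_succ_self q))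

theorem irr_walk_rk {L : Type u} [Field L] [Algebra K L]
    {σ : Bool} {r : ℕ} {v : ℕ → Fin n → L} (hr : 1 ≤ r) (hv : IsWalk S.P σ r v) :
    rk K (Set.range (v r)) = m * k := by
  obtain ⟨q, rfl⟩ : ∃ q, r = q + 1 := ⟨r - 1, by omega⟩
  exact S.rkV L _ _ _ (irr_edge_symm (hv q (Nat.lt_succ_self q)))

theorem irr_extend (hS : ST_STEP.{u}) [Big K Ω] {σ : Bool} {r₀ : ℕ} (h0 : 1 ≤ r₀)
    {w : ℕ → Fin n → Ω} (hw : IsWalk S.P σ r₀ w) (hr : rk K (pts w (Set.Iic r₀)) = m * k + r₀ * k)
    (r : ℕ) (hrr : r₀ ≤ r) : ∃ w' : ℕ → Fin n → Ω, IsWalk S.P σ r w' ∧ (∀ i ≤ r₀, w' i = w i) ∧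
      rk K (pts w' (Set.Iic r)) = m * k + r * k := by
  induction r, hrr using Nat.le_induction with
  | base => exact ⟨w, hw, fun _ _ => rfl, hr⟩
  | succ r hrr ih =>
    obtain ⟨w', h1, h2, h3⟩ := ih
    have hv : Vtx S.P (ty σ r) (w' r) := irr_walk_vtx (by omega) h1
    obtain ⟨y, hy1, hy2⟩ := hS K n m k S Ω (ty σ r) (w' r) (pts w' (Set.Iic r)) (irr_pts_finite w' r) hv
    rw [Set.union_eq_self_of_subset_right (irr_range_subset_pts w' (le_refl r))] at hy2
    have hlow : ∀ i ≤ r, Function.update w' (r + 1) y i = w' i := by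
      intro i hi
      rw [Function.update_of_ne]
      omega
    have htop : Function.update w' (r + 1) y (r + 1) = y := Function.update_self _ _ _
    refine ⟨Function.update w' (r + 1) y, ?_, ?_, ?_⟩
    · intro i hi
      rcases Nat.lt_or_ge i r with h | h
      · rw [hlow i (by omega), hlow (i + 1) (by omega)]
        exact h1 i h
      · have : i = r := by omega
        subst this
        rw [hlow i le_rfl, htop]
        exact hy1
    · intro i hi
      rw [hlow i (by omega)]
      exact h2 i hi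
    · rw [irr_pts_succ, irr_pts_congr hlow, htop, hy2, h3]
      ring

/-- the ends of a generic walk of length `m` -/
theorem irr_ends (hE : ST_ENDS.{u}) (hG : ST_GNB.{u}) {σ : Bool} {w : ℕ → Fin n → Ω}
    (hw : IsWalk S.P σ m w) (hr : rk K (pts w (Set.Iic m)) = m * k + m * k) :
    NB m w ∧ (∀ i ≤ m, ∀ c, w i c ∈ cl K (Set.range (w 0) ∪ Set.range (w m))) ∧
      rk K (Set.range (w 0) ∪ Set.range (w m)) = m * k + m * k := by
  have hnb := hG K n m k S Ω σ m w hw hr.ge
  have hends := hE K n m k S Ω σ m w le_rfl hw hnb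
  refine ⟨hnb, hends, le_antisymm ?_ ?_⟩
  · have hm := S.two_le
    have e0 : rk K (Set.range (w 0)) = m * k := S.rkV Ω (ty σ 0) (w 0) (w 1) (hw 0 (by omega))
    have em : rk K (Set.range (w m)) = m * k := irr_walk_rk (by omega) hw
    have := rk_union_le (K := K) (Set.finite_range (w 0)) (Set.finite_range (w m))
    omega
  · rw [← hr]
    refine rk_le_of_subset_cl ((Set.finite_range _).union (Set.finite_range _)) ?_
    intro a ha
    obtain ⟨i, hi, c, rfl⟩ := Set.mem_iUnion₂.mp ha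
    exact hends i hi c

end walk

section final

variable {K : Type u} [Field K] [IsAlgClosed K] {n m k : ℕ} {S : Sys K n m k}
  {Ω : Type u} [Field Ω] [Algebra K Ω]

/-- a neighbour `y₂` of `x` free from `y`, conjugate to `y'`, and a generic walk starting with `y, x, y₂` -/
theorem irr_walk (hF : ST_FREE.{u}) (hS : ST_STEP.{u}) [Big K Ω] {σ : Bool} {x y y' : Fin n → Ω}
    (hy : Edge S.P σ x y) (hy' : Edge S.P σ x y') : ∃ w : ℕ → Fin n → Ω, IsWalk S.P (!σ) m w ∧
      w 0 = y ∧ w 1 = x ∧ Conj (cl K (Set.range x)) y' (w 2) ∧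
      rk K (pts w (Set.Iic m)) = m * k + m * k := by
  obtain ⟨y₂, h1, h2⟩ := hF K Ω (Set.range x) (Set.range x ∪ Set.range y) (Set.finite_range x)
    ((Set.finite_range x).union (Set.finite_range y)) Set.subset_union_left (Fin n) y'
  have ex : rk K (Set.range x) = m * k := S.rkV Ω σ x y hy
  have exy : rk K (Set.range x ∪ Set.range y) = (m + 1) * k := S.rkE Ω σ x y hy
  have exy' : rk K (Set.range x ∪ Set.range y') = (m + 1) * k := S.rkE Ω σ x y' hy'
  have hy₂ : Edge S.P σ x y₂ := irr_edge_congr hy'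
    (irr_conj_pair (s := Set.range x) (fun c => mem_cl_of_mem (Set.mem_range_self c)) h1)
  let w₀ : ℕ → Fin n → Ω := fun i => if i = 0 then y else if i = 1 then x else y₂
  have hw₀ : IsWalk S.P (!σ) 2 w₀ := by
    intro i hi
    obtain rfl | rfl : i = 0 ∨ i = 1 := by omega
    · exact irr_edge_symm hy
    · have e : ty (!σ) 1 = σ := by rw [ty_succ, ty_zero, Bool.not_not]
      rw [e]
      exact hy₂
  have hr₀ : rk K (pts w₀ (Set.Iic 2)) = m * k + 2 * k := by
    have e : pts w₀ (Set.Iic 2) = Set.range x ∪ Set.range y ∪ Set.range y₂ := by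
      unfold pts
      ext a
      simp only [Set.mem_iUnion, Set.mem_Iic, exists_prop, Set.mem_union]
      constructor
      · rintro ⟨i, hi, ha⟩
        obtain rfl | rfl | rfl : i = 0 ∨ i = 1 ∨ i = 2 := by omega
        · exact Or.inl (Or.inr ha)
        · exact Or.inl (Or.inl ha)
        · exact Or.inr ha
      · rintro ((ha | ha) | ha)
        · exact ⟨1, by omega, ha⟩
        · exact ⟨0, by omega, ha⟩
        · exact ⟨2, by omega, ha⟩
    rw [e]
    rw [ex, exy, exy'] at h2
    have e1 : (m + 1) * k = m * k + k := by ring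
    rw [e1] at h2
    omega
  obtain ⟨w, hw1, hw2, hw3⟩ := irr_extend hS (by norm_num) hw₀ hr₀ m S.two_le
  refine ⟨w, hw1, hw2 0 (by omega), hw2 1 (by omega), ?_, hw3⟩
  rw [hw2 2 le_rfl]
  exact h1

theorem irr_main (hC : ST_CONJ.{u}) (hF : ST_FREE.{u}) (hLD : ST_LD.{u}) (hE : ST_ENDS.{u})
    (hS : ST_STEP.{u}) (hG : ST_GNB.{u}) [hBig : Big K Ω] {σ : Bool} {x y y' : Fin n → Ω}
    (hy : Edge S.P σ x y) (hy' : Edge S.P σ x y') : Spec (cl K (Set.range x)) y y' := by
  have : IsAlgClosed Ω := hBig.alg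
  obtain ⟨w, hw, w0, w1, w2, hwr⟩ := irr_walk hF hS hy hy
  obtain ⟨w', hw', w0', w1', w2', hwr'⟩ := irr_walk hF hS hy hy'
  obtain ⟨hnb, hends, hrk⟩ := irr_ends hE hG hw hwr
  obtain ⟨hnb', hends', hrk'⟩ := irr_ends hE hG hw' hwr'
  have hm := S.two_le
  -- the ends are conjugate over `K`
  have hvm : ∀ v : ℕ → Fin n → Ω, IsWalk S.P (!σ) m v → Vtx S.P (ty (!σ) m) (v m) :=
    fun v hv => irr_walk_vtx (by omega) hv
  have hvv : Conj K (w m) (w' m) := irr_vtx_conj (hvm w hw) (hvm w' hw')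
  have rkm : ∀ v : ℕ → Fin n → Ω, IsWalk S.P (!σ) m v → rk K (Set.range (v m)) = m * k :=
    fun v hv => irr_walk_rk (by omega) hv
  have rky : rk K (Set.range y) = m * k := S.rkV Ω _ y x (irr_edge_symm hy)
  have hpair : ∀ v v' : ℕ → Fin n → Ω, IsWalk S.P (!σ) m v → v 0 = y → Spec K (v m) (v' m) →
      rk K (Set.range (v 0) ∪ Set.range (v m)) = m * k + m * k →
      Spec K (Sum.elim y (v m)) (Sum.elim y (v' m)) := by
    intro v v' hv hv0 hsp hrv
    refine irr_spec_pair (s := Set.range y) (fun c => mem_cl_of_mem (Set.mem_range_self c)) ?_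
    refine hLD K Ω ∅ (Set.range y) Set.finite_empty (Set.finite_range y) (Set.empty_subset _) (Fin n)
      (v m) (v' m) ?_ (irr_spec_empty hsp)
    rw [Set.empty_union, rk_empty, rky, rkm v hv, ← hv0, hrv]
    rfl
  have hconj : Conj K (Sum.elim y (w m)) (Sum.elim y (w' m)) :=
    Conj.of_spec (hpair w w' hw w0 hvv.spec hrk) (hpair w' w hw' w0' hvv.symm.spec hrk')
  have hCC := hC K Ω Ω (Fin n ⊕ Fin n) (Sum.elim y (w m)) (Sum.elim y (w' m)) hconj
  obtain ⟨M, hM⟩ : ∃ M : IntermediateField K Ω, M = cl K (Set.range (Sum.elim y (w m))) := ⟨_, rfl⟩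
  rw [← hM] at hCC
  obtain ⟨θ, hθ⟩ := hCC
  have hmem : ∀ i ≤ m, ∀ c, w i c ∈ M := by
    intro i hi c
    rw [hM, Set.Sum.elim_range, ← w0]
    exact hends i hi c
  let tw : ℕ → Fin n → Ω := fun i c => if h : i ≤ m then θ ⟨w i c, hmem i h c⟩ else 0
  have htw : ∀ i (hi : i ≤ m) c, tw i c = θ ⟨w i c, hmem i hi c⟩ := by
    intro i hi c
    exact dif_pos hi
  have htww : IsWalk S.P (!σ) m tw := by
    intro i hi
    refine irr_edge_congr (hw i hi) ?_
    let z : Fin n ⊕ Fin n → M := Sum.elim (fun c => ⟨w i c, hmem i (by omega) c⟩)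
      (fun c => ⟨w (i + 1) c, hmem (i + 1) (by omega) c⟩)
    have c1 := conj_of_algHom (k := K) M.val z
    have c2 := conj_of_algHom (k := K) θ z
    have e1 : (fun j => M.val (z j)) = Sum.elim (w i) (w (i + 1)) := by
      funext j; cases j <;> rfl
    have e2 : (fun j => θ (z j)) = Sum.elim (tw i) (tw (i + 1)) := by
      funext j
      cases j with
      | inl c => exact (htw i (by omega) c).symm
      | inr c => exact (htw (i + 1) (by omega) c).symm
    rw [e1] at c1
    rw [e2] at c2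
    exact c1.symm.trans c2
  have htnb : NB m tw := by
    intro i hi heq
    apply hnb i hi
    funext c
    have := congrFun heq c
    rw [htw i (by omega), htw (i + 2) hi] at this
    exact congrArg Subtype.val (θ.injective this)
  have ht0 : tw 0 = w' 0 := by
    funext c
    rw [htw 0 (Nat.zero_le _), w0']
    exact hθ (Sum.inl c) ⟨w 0 c, hmem 0 (Nat.zero_le _) c⟩ (congrFun w0 c)
  have htm : tw m = w' m := by
    funext c
    rw [htw m le_rfl]
    exact hθ (Sum.inr c) _ rfl
  have huniq := (S.uniq Ω (!σ) m m tw w' (by omega) htww hw' htnb hnb' ht0 rfl htm).2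
  have hθx : ∀ c, θ ⟨w 1 c, hmem 1 (by omega) c⟩ = x c := by
    intro c
    rw [← htw 1 (by omega), huniq 1 (by omega), w1']
  have hθy : ∀ c, θ ⟨w 0 c, hmem 0 (by omega) c⟩ = y c := by
    intro c
    rw [← htw 0 (by omega), huniq 0 (by omega), w0']
  have hθ2 : ∀ c, θ ⟨w 2 c, hmem 2 (by omega) c⟩ = w' 2 c := by
    intro c
    rw [← htw 2 (by omega), huniq 2 (by omega)]
  -- the restriction of `θ` to the closure of `x`
  have hxM : ∀ c, x c ∈ M := fun c => by rw [← w1]; exact hmem 1 (by omega) c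
  have hle : cl K (Set.range x) ≤ M := by
    rw [hM]
    refine cl_le_cl ?_
    rintro _ ⟨c, rfl⟩
    have h := hxM c
    rwa [hM] at h
  have hθx' : ∀ c, θ ⟨x c, hxM c⟩ = x c := by
    intro c
    have e : (⟨x c, hxM c⟩ : M) = ⟨w 1 c, hmem 1 (by omega) c⟩ := Subtype.ext (congrFun w1 c).symm
    rw [e]
    exact hθx c
  have hmaps : ∀ a : cl K (Set.range x), θ ⟨a, hle a.2⟩ ∈ cl K (Set.range x) := by
    intro a
    have h1 : θ ⟨a, hle a.2⟩ ∈ cl K (θ '' (Set.range fun c => (⟨x c, hxM c⟩ : M))) := by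
      refine map_mem_cl_val M θ (Set.finite_range _) ?_
      rw [← Set.range_comp]
      exact a.2
    rw [← Set.range_comp] at h1
    have e : (θ ∘ fun c => (⟨x c, hxM c⟩ : M)) = x := funext hθx'
    rw [e] at h1
    exact h1
  have hfix : ∀ r ∈ IntermediateField.adjoin K (Set.range x), ∀ h : r ∈ M, θ ⟨r, h⟩ = r := by
    intro r hr
    induction hr using IntermediateField.adjoin_induction with
    | mem b hb =>
      obtain ⟨c, rfl⟩ := hb
      intro h
      exact hθx' c
    | algebraMap b =>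
      intro h
      exact θ.commutes b
    | add b c hb hc ihb ihc =>
      intro h
      have h1 : b ∈ M := hle (Pool.Agent.Helper49.Girth.adjoin_le_cl _ hb)
      have h2 : c ∈ M := hle (Pool.Agent.Helper49.Girth.adjoin_le_cl _ hc)
      have := map_add θ ⟨b, h1⟩ ⟨c, h2⟩
      rw [ihb h1, ihc h2] at this
      exact this
    | inv b hb ihb =>
      intro h
      have h1 : b ∈ M := hle (Pool.Agent.Helper49.Girth.adjoin_le_cl _ hb)
      have := map_inv₀ θ ⟨b, h1⟩
      rw [ihb h1] at this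
      exact this
    | mul b c hb hc ihb ihc =>
      intro h
      have h1 : b ∈ M := hle (Pool.Agent.Helper49.Girth.adjoin_le_cl _ hb)
      have h2 : c ∈ M := hle (Pool.Agent.Helper49.Girth.adjoin_le_cl _ hc)
      have := map_mul θ ⟨b, h1⟩ ⟨c, h2⟩
      rw [ihb h1, ihc h2] at this
      exact this
  let θ₁ : cl K (Set.range x) →+* cl K (Set.range x) :=
    { toFun := fun a => ⟨θ ⟨a, hle a.2⟩, hmaps a⟩
      map_one' := Subtype.ext (map_one θ)
      map_mul' := fun a b => Subtype.ext (map_mul θ ⟨a, hle a.2⟩ ⟨b, hle b.2⟩)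
      map_zero' := Subtype.ext (map_zero θ)
      map_add' := fun a b => Subtype.ext (map_add θ ⟨a, hle a.2⟩ ⟨b, hle b.2⟩) }
  have hsurj : Function.Surjective θ₁ := by
    let F₀ := IntermediateField.adjoin K (Set.range x)
    let θ₂ : algebraicClosure F₀ Ω →ₐ[F₀] algebraicClosure F₀ Ω :=
      { (θ₁ : algebraicClosure F₀ Ω →+* algebraicClosure F₀ Ω) with
        commutes' := fun r => Subtype.ext (hfix r r.2 _) }
    exact (Algebra.IsAlgebraic.algHom_bijective θ₂).2
  let ι : cl K (Set.range x) →+* M := (IntermediateField.inclusion hle : _ →ₐ[K] M)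
  have hι : (algebraMap M Ω).comp ι = algebraMap (cl K (Set.range x)) Ω := rfl
  have hιθ : (θ : M →+* Ω).comp ι = (algebraMap (cl K (Set.range x)) Ω).comp θ₁ := rfl
  have key1 : ∀ (z : Fin n → M) (f : MvPolynomial (Fin n) (cl K (Set.range x))),
      aeval (fun c => (z c : Ω)) f = (eval₂ ι z f : M) := by
    intro z f
    have := eval₂_comp_left (algebraMap M Ω) ι z f
    rw [hι] at this
    exact this.symm
  have key2 : ∀ (z : Fin n → M) (f : MvPolynomial (Fin n) (cl K (Set.range x))),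
      aeval (fun c => θ (z c)) (map θ₁ f) = θ (eval₂ ι z f) := by
    intro z f
    have := eval₂_comp_left (θ : M →+* Ω) ι z f
    rw [hιθ, ← eval₂_map] at this
    exact this.symm
  have key : ∀ (z : Fin n → M) (f : MvPolynomial (Fin n) (cl K (Set.range x))),
      aeval (fun c => (z c : Ω)) f = 0 ↔ aeval (fun c => θ (z c)) (map θ₁ f) = 0 := by
    intro z f
    rw [key1, key2, map_eq_zero_iff θ θ.injective]
    exact ⟨fun h => Subtype.ext h, fun h => by rw [h]; rfl⟩
  intro g hg
  rw [w2' g]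
  obtain ⟨f, rfl⟩ := MvPolynomial.map_surjective _ hsurj g
  have k0 := key (fun c => ⟨w 0 c, hmem 0 (Nat.zero_le _) c⟩) f
  have k2 := key (fun c => ⟨w 2 c, hmem 2 (by omega) c⟩) f
  have e0 : (fun c => θ ⟨w 0 c, hmem 0 (Nat.zero_le _) c⟩) = y := funext hθy
  have e2 : (fun c => θ ⟨w 2 c, hmem 2 (by omega) c⟩) = w' 2 := funext hθ2
  rw [e0] at k0
  rw [e2] at k2
  have h1 : aeval (w 0) f = 0 := k0.mpr hg
  rw [w0] at h1
  exact k2.mp ((w2 f).mp h1)

end final

theorem st_IRR (hC : ST_CONJ.{u}) (hF : ST_FREE.{u}) (hLD : ST_LD.{u}) (hB : ST_BIG.{u})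
    (hE : ST_ENDS.{u}) (hS : ST_STEP.{u}) (hG : ST_GNB.{u}) : ST_IRR.{u} := by
  intro K _ _ n m k S L _ _ _ σ x y y' hy hy'
  obtain ⟨Ω, _, _, _, _, _⟩ := hB K L
  have hemb : ∀ z z' : Fin n → L, Edge S.P σ z z' →
      Edge S.P σ (fun c => algebraMap L Ω (z c)) (fun c => algebraMap L Ω (z' c)) := by
    intro z z' h
    refine irr_edge_congr h ?_
    have c1 := conj_of_algHom (k := K) (IsScalarTower.toAlgHom K L Ω) (Sum.elim z z')
    have e1 : (fun j => (IsScalarTower.toAlgHom K L Ω) (Sum.elim z z' j)) =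
        Sum.elim (fun c => algebraMap L Ω (z c)) (fun c => algebraMap L Ω (z' c)) := by
      funext j; cases j <;> rfl
    rw [e1] at c1
    exact c1
  have h := irr_main hC hF hLD hE hS hG (hemb x y hy) (hemb x y' hy')
  have e : (Set.range fun c => algebraMap L Ω (x c)) = algebraMap L Ω '' Set.range x := by
    rw [← Set.range_comp]; rfl
  rw [e] at h
  exact irr_descend h

end Pool.Agent.Helper92.GG

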